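import Pool.Agent.Helper78.ITTM.Final

set_option autoImplicit false

/-!
# A countable set of ITTM-degrees without a minimal upper bound

The machine model (programs, configurations, transfinite runs with limit superior at limit
stages, the limit state, the oracle tape, halting with output) is defined in
`Pool/Agent/Helper78/ITTM/Defs.lean`.
-/

namespace Pool.Agent.Results.MP_f73c5b_lc.NoMinimalUpperBound

open Pool.Agent.Helper78.ITTM (Prog Halts)

/-- The characteristic function of a set of natural numbers. -/
noncomputable def chi (y : Set ℕ) : ℕ → Bool := fun n => @decide (n ∈ y) (Classical.propDecidable _)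

/-- `x ≤_∞ y`: the set `x` is ITTM-decidable in `y`. -/
def DecidableIn (x y : Set ℕ) : Prop :=
  ∃ P : Prog, ∀ n : ℕ, (n ∈ x → Halts P (chi y) n 1) ∧ (n ∉ x → Halts P (chi y) n 0)

theorem decidableIn_iff (x y : Set ℕ) :
    DecidableIn x y ↔ Pool.Agent.Helper78.ITTM.Le (chi x) (chi y) := by
  unfold DecidableIn Pool.Agent.Helper78.ITTM.Le
  refine exists_congr (fun P => forall_congr' (fun n => ?_))
  by_cases h : n ∈ x <;> simp [chi, h]

/-- There are sets of natural numbers `D 0, D 1, ...` such that no upper bound of them with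
respect to `≤_∞` is minimal. -/
theorem result : ∃ D : ℕ → Set ℕ, ∀ u : Set ℕ, (∀ k, DecidableIn (D k) u) →
    ∃ v : Set ℕ, (∀ k, DecidableIn (D k) v) ∧ DecidableIn v u ∧ ¬ DecidableIn u v := by
  obtain ⟨D, hD⟩ := Pool.Agent.Helper78.ITTM.final_real
  have hchi : ∀ d : ℕ → Bool, chi {n | d n = true} = d := by
    intro d
    funext n
    simp [chi]
  refine ⟨fun k => {n | D k n = true}, fun u hu => ?_⟩
  obtain ⟨V, h1, h2, h3⟩ := hD (chi u) (fun k => by
    have h := hu k
    rw [decidableIn_iff, hchi] at h
    exact h)
  refine ⟨{n | V n = true}, fun k => ?_, ?_, ?_⟩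
  · rw [decidableIn_iff, hchi, hchi]
    exact h1 k
  · rw [decidableIn_iff, hchi]
    exact h2
  · rw [decidableIn_iff, hchi]
    exact h3

end Pool.Agent.Results.MP_f73c5b_lc.NoMinimalUpperBound
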